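import Mathlib

namespace Pool.Agent.Results.MP_87c4bd_co.NoGap

open MeasureTheory Filter Topology Set
open scoped ENNReal

section Defs

variable {Ω : Type*} [MeasurableSpace Ω]

/-- `-log a` for `a ∈ [0,1]`, with `-log 0 = ∞`. -/
noncomputable def negLog (a : ℝ≥0∞) : ℝ≥0∞ :=
  if a = 0 then ⊤ else ENNReal.ofReal (-Real.log a.toReal)

/-- `φ_π(a) = ∫ -log a dπ`. -/
noncomputable def phi (π : Measure Ω) (a : Ω → ℝ≥0∞) : ℝ≥0∞ := ∫⁻ x, negLog (a x) ∂π

/-- `N_ℓ(I, π, λ)`: least number of `I`-boxes covering measure at least `1 - λ` (`⊤` if none). -/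
noncomputable def coverNum (π : Measure Ω) (I : Set (Set Ω)) (lam : ℝ) (l : ℕ) : ℕ∞ :=
  ⨅ (n : ℕ) (B : Fin n → Fin l → Set Ω) (_ : ∀ m i, B m i ∈ I)
    (_ : ENNReal.ofReal (1 - lam) ≤ Measure.pi (fun _ : Fin l => π) (⋃ m, Set.pi univ (B m))),
    (n : ℕ∞)

/-- `(1/ℓ) log N_ℓ`, with `log ∞ = ∞`. -/
noncomputable def rate (π : Measure Ω) (I : Set (Set Ω)) (lam : ℝ) (l : ℕ) : ℝ≥0∞ :=
  if coverNum π I lam l = ⊤ then ⊤
  else ENNReal.ofReal (Real.log ((coverNum π I lam l).toNat : ℝ) / l)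

/-- Upper covering entropy. -/
noncomputable def upperH (π : Measure Ω) (I : Set (Set Ω)) (lam : ℝ) : ℝ≥0∞ :=
  limsup (rate π I lam) atTop

/-- Lower covering entropy. -/
noncomputable def lowerH (π : Measure Ω) (I : Set (Set Ω)) (lam : ℝ) : ℝ≥0∞ :=
  liminf (rate π I lam) atTop

/-- `H_full`: infimum of `φ_π(a)`, `a(x) = β{J : x ∈ J}`, over compatible probability measures `β`
on a σ-algebra of subsets of `I`. -/
noncomputable def Hfull (π : Measure Ω) (I : Set (Set Ω)) : ℝ≥0∞ :=
  ⨅ (m : MeasurableSpace I) (β : @Measure I m) (_ : IsProbabilityMeasure β)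
    (_ : NullMeasurableSet {p : I × Ω | p.2 ∈ p.1.1} (β.prod π)),
    phi π fun x => β {J | x ∈ J.1}

/-- `H_cnt`: infimum of `φ_π` over countable convex combinations `∑_J p(J) 1_J`. -/
noncomputable def Hcnt (π : Measure Ω) (I : Set (Set Ω)) : ℝ≥0∞ :=
  ⨅ p : PMF I, phi π fun x => ∑' J : I, p J * J.1.indicator 1 x

end Defs

variable {Ω : Type*} [MeasurableSpace Ω] (π : Measure Ω) [IsProbabilityMeasure π]

/-- Measurable functions with values in `[0,1]`. -/
def Good (a : Ω → ℝ) : Prop := Measurable a ∧ ∀ x, 0 ≤ a x ∧ a x ≤ 1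

/-- Regularised cost. -/
noncomputable def psi (t : ℝ) (a : Ω → ℝ) : ℝ := ∫ x, -Real.log (t + a x) ∂π

theorem intg {f : Ω → ℝ} (hf : Measurable f) (C : ℝ) (h : ∀ x, |f x| ≤ C) : Integrable f π :=
  Integrable.of_bound hf.aestronglyMeasurable C (ae_of_all _ h)

theorem abs_log_le {t y : ℝ} (ht : 0 < t) (h1 : t ≤ y) (h2 : y ≤ t + 1) :
    |Real.log y| ≤ |Real.log t| + |Real.log (t + 1)| := by
  have a1 := Real.log_le_log ht h1
  have a2 := Real.log_le_log (ht.trans_le h1) h2
  have := le_abs_self (Real.log (t + 1))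
  have := neg_abs_le (Real.log t)
  have := abs_nonneg (Real.log t)
  have := abs_nonneg (Real.log (t + 1))
  rw [abs_le]; constructor <;> linarith

theorem psi_int {t : ℝ} (ht : 0 < t) {a : Ω → ℝ} (ha : Good a) :
    Integrable (fun x => -Real.log (t + a x)) π :=
  intg π ((ha.1.const_add t).log.neg) (|Real.log t| + |Real.log (t + 1)|) fun x => by
    rw [abs_neg]; exact abs_log_le ht (by linarith [(ha.2 x).1]) (by linarith [(ha.2 x).2])

theorem psi_ge {t : ℝ} (ht : 0 < t) {a : Ω → ℝ} (ha : Good a) :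
    -Real.log (t + 1) ≤ psi π t a := by
  have : ∫ _x, -Real.log (t + 1) ∂π ≤ psi π t a :=
    integral_mono (integrable_const _) (psi_int π ht ha) fun x => by
      have := Real.log_le_log (by linarith [(ha.2 x).1]) (show t + a x ≤ t + 1 by linarith [(ha.2 x).2])
      simp only; linarith
  simpa using this

theorem psi_bdd {t : ℝ} (ht : 0 < t) {A : Set (Ω → ℝ)} (hA : ∀ a ∈ A, Good a) :
    BddBelow (psi π t '' A) :=
  ⟨-Real.log (t + 1), by rintro _ ⟨a, ha, rfl⟩; exact psi_ge π ht (hA a ha)⟩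

theorem opt {I : Set (Set Ω)} (hI : ∀ J ∈ I, MeasurableSet J) {A : Set (Ω → ℝ)}
    (hA : ∀ a ∈ A, Good a) (hne : A.Nonempty)
    (hmix : ∀ a ∈ A, ∀ J ∈ I, ∀ u : ℝ, 0 ≤ u → u ≤ 1 →
      (fun x => (1 - u) * a x + u * J.indicator 1 x) ∈ A)
    {t κ : ℝ} (ht : 0 < t) (ht1 : t ≤ 1) (hκ : 0 < κ) :
    ∃ a ∈ A, ∀ J ∈ I, ∫ x, J.indicator 1 x / (t + a x) ∂π ≤ 1 + κ := by
  set u := min (t / 2) (κ * t ^ 2 / 4) with hu
  have u0 : 0 < u := lt_min (by positivity) (by positivity)
  have u1 : u ≤ t / 2 := min_le_left _ _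
  have u2 : u ≤ κ * t ^ 2 / 4 := min_le_right _ _
  obtain ⟨_, ⟨a, ha, rfl⟩, hlt⟩ := exists_lt_of_csInf_lt (hne.image (psi π t))
    (lt_add_of_pos_right (sInf (psi π t '' A)) (show 0 < κ * u / 2 by positivity))
  refine ⟨a, ha, fun J hJ => ?_⟩
  have ga := hA a ha
  have ha' := hmix a ha J hJ u u0.le (by linarith)
  have hle : sInf (psi π t '' A) ≤ psi π t _ := csInf_le (psi_bdd π ht hA) ⟨_, ha', rfl⟩
  have mi : Measurable (J.indicator (1 : Ω → ℝ)) := measurable_one.indicator (hI J hJ)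
  have bi : ∀ x, 0 ≤ J.indicator (1 : Ω → ℝ) x ∧ J.indicator (1 : Ω → ℝ) x ≤ 1 := fun x => by
    by_cases hx : x ∈ J <;> simp [hx]
  have i1 : Integrable (fun x => J.indicator (1 : Ω → ℝ) x / (t + a x)) π :=
    intg π (mi.div (ga.1.const_add t)) (1 / t) fun x => by
      have := ga.2 x; have := bi x
      rw [abs_of_nonneg (div_nonneg (bi x).1 (by linarith))]
      exact div_le_div₀ zero_le_one (bi x).2 ht (by linarith)
  have key : psi π t (fun x => (1 - u) * a x + u * J.indicator 1 x) ≤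
      ∫ x, (-Real.log (t + a x) - u * (J.indicator (1 : Ω → ℝ) x / (t + a x))
        + (u + 2 * u ^ 2 / t ^ 2)) ∂π := by
    refine integral_mono (psi_int π ht (hA _ ha'))
      (((psi_int π ht ga).sub (i1.const_mul u)).add (integrable_const _)) fun x => ?_
    obtain ⟨p0, p1⟩ := ga.2 x
    obtain ⟨q0, q1⟩ := bi x
    simp only
    set p := a x
    set q := J.indicator (1 : Ω → ℝ) x
    have hb : 0 < t + p := by linarith
    set y := u * (q - p) / (t + p) with hy
    have hy1 : |y| ≤ u / t := by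
      rw [hy, abs_div, abs_mul, abs_of_pos u0, abs_of_pos hb]
      refine div_le_div₀ u0.le ?_ ht (by linarith)
      exact mul_le_of_le_one_right u0.le (abs_le.2 ⟨by linarith, by linarith⟩)
    have hut : u / t ≤ 1 / 2 := by rw [div_le_iff₀ ht]; linarith
    have hy2 : -(1 / 2) ≤ y := by linarith [neg_abs_le y]
    have hy3 : y ^ 2 ≤ u ^ 2 / t ^ 2 := by
      rw [← div_pow, ← sq_abs]; exact pow_le_pow_left₀ (abs_nonneg _) hy1 2
    have e1 : t + ((1 - u) * p + u * q) = (t + p) * (1 + y) := by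
      rw [hy]; field_simp; ring
    have h1y : 0 < 1 + y := by linarith
    rw [e1, Real.log_mul hb.ne' h1y.ne']
    have l1 := Real.one_sub_inv_le_log_of_pos h1y
    have l2 : (1 + y)⁻¹ ≤ 1 - y + 2 * y ^ 2 := by
      rw [inv_le_iff_one_le_mul₀ h1y]; nlinarith [sq_nonneg y]
    have e2 : y = u * (q / (t + p)) - u * (p / (t + p)) := by rw [hy]; ring
    have l3 : u * (p / (t + p)) ≤ u :=
      mul_le_of_le_one_right u0.le ((div_le_one hb).2 (by linarith))
    have e3 : 2 * u ^ 2 / t ^ 2 = 2 * (u ^ 2 / t ^ 2) := by ring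
    linarith
  have i3 : Integrable (fun x => -Real.log (t + a x)
      - u * (J.indicator (1 : Ω → ℝ) x / (t + a x))) π := (psi_int π ht ga).sub (i1.const_mul u)
  rw [integral_add i3 (integrable_const _),
    integral_sub (psi_int π ht ga) (i1.const_mul u), integral_const_mul] at key
  simp only [integral_const, probReal_univ, one_smul] at key
  have h3 : 2 * u ^ 2 / t ^ 2 ≤ κ * u / 2 := by
    rw [div_le_iff₀ (by positivity)]; nlinarith
  have h4 : u * ∫ x, J.indicator (1 : Ω → ℝ) x / (t + a x) ∂π ≤ u * (1 + κ) := by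
    unfold psi at hlt hle key; nlinarith
  exact le_of_mul_le_mul_left h4 u0

theorem conv {I : Set (Set Ω)} (hI : ∀ J ∈ I, MeasurableSet J) {a : Ω → ℝ} (ga : Good a)
    {t K r T c θ : ℝ} (ht : 0 < t) (hK : ∀ J ∈ I, ∫ x, J.indicator 1 x / (t + a x) ∂π ≤ K)
    (hr : 0 ≤ r) (hT : ∀ x, |Real.log (t + a x)| ≤ T) (hrT : r * T ≤ 1)
    {l n : ℕ} (B : Fin n → Fin l → Set Ω) (hB : ∀ m i, B m i ∈ I)
    (hc : ENNReal.ofReal c ≤ Measure.pi (fun _ : Fin l => π) (⋃ m, Set.pi univ (B m))) :
    c ≤ n * K ^ l * Real.exp (-θ)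
      + Real.exp (r * θ) * Real.exp (-(r * psi π t a) + (r * T) ^ 2) ^ l := by
  set μ := Measure.pi (fun _ : Fin l => π)
  set C := ⋃ m, Set.pi univ (B m)
  have mC : MeasurableSet C :=
    MeasurableSet.iUnion fun m => MeasurableSet.univ_pi fun i => hI _ (hB m i)
  have hb : ∀ x, 0 < t + a x := fun x => by linarith [(ga.2 x).1]
  have bi : ∀ (J : Set Ω) x, 0 ≤ J.indicator (1 : Ω → ℝ) x ∧ J.indicator (1 : Ω → ℝ) x ≤ 1 :=
    fun J x => by by_cases hx : x ∈ J <;> simp [hx]
  have i1 : ∀ J ∈ I, Integrable (fun x => J.indicator (1 : Ω → ℝ) x / (t + a x)) π := fun J hJ =>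
    intg π ((measurable_one.indicator (hI J hJ)).div (ga.1.const_add t)) (1 / t) fun x => by
      have := ga.2 x
      rw [abs_of_nonneg (div_nonneg (bi J x).1 (hb x).le)]
      exact div_le_div₀ zero_le_one (bi J x).2 ht (by linarith)
  have hz : ∀ x, |r * Real.log (t + a x)| ≤ r * T := fun x => by
    rw [abs_mul, abs_of_nonneg hr]; exact mul_le_mul_of_nonneg_left (hT x) hr
  have i2 : Integrable (fun x => Real.exp (r * Real.log (t + a x))) π :=
    intg π (((ga.1.const_add t).log.const_mul r).exp) (Real.exp 1) fun x => by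
      rw [abs_of_pos (Real.exp_pos _)]
      exact Real.exp_le_exp.2 (by linarith [le_abs_self (r * Real.log (t + a x)), hz x])
  have j1 : ∀ m, Integrable (fun x : Fin l → Ω =>
      ∏ i, (B m i).indicator (1 : Ω → ℝ) (x i) / (t + a (x i))) μ := fun m =>
    Integrable.fintype_prod (f := fun i x => (B m i).indicator (1 : Ω → ℝ) x / (t + a x))
      fun i => i1 _ (hB m i)
  have j2 : Integrable (fun x : Fin l → Ω => ∏ i, Real.exp (r * Real.log (t + a (x i)))) μ :=
    Integrable.fintype_prod (f := fun _ x => Real.exp (r * Real.log (t + a x))) fun _ => i2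
  have j3 := (integrable_finset_sum Finset.univ fun m _ => j1 m).mul_const (Real.exp (-θ))
  have h1 : c ≤ ∫ x, C.indicator (1 : (Fin l → Ω) → ℝ) x ∂μ := by
    rw [integral_indicator_one mC]
    exact (ENNReal.ofReal_le_iff_le_toReal (measure_ne_top _ _)).1 hc
  have h2 : ∫ x, C.indicator (1 : (Fin l → Ω) → ℝ) x ∂μ ≤ ∫ x,
      ((∑ m, ∏ i, (B m i).indicator (1 : Ω → ℝ) (x i) / (t + a (x i))) * Real.exp (-θ)
        + Real.exp (r * θ) * ∏ i, Real.exp (r * Real.log (t + a (x i)))) ∂μ := by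
    refine integral_mono ((integrable_const (1 : ℝ)).indicator mC) (j3.add (j2.const_mul _))
      fun x => ?_
    have n1 : ∀ m, 0 ≤ ∏ i, (B m i).indicator (1 : Ω → ℝ) (x i) / (t + a (x i)) := fun m =>
      Finset.prod_nonneg fun i _ => div_nonneg (bi _ _).1 (hb _).le
    have n2 : 0 ≤ (∑ m, ∏ i, (B m i).indicator (1 : Ω → ℝ) (x i) / (t + a (x i))) * Real.exp (-θ) :=
      mul_nonneg (Finset.sum_nonneg fun m _ => n1 m) (Real.exp_pos _).le
    have e2 : Real.exp (r * θ) * ∏ i, Real.exp (r * Real.log (t + a (x i)))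
        = Real.exp (r * (θ + ∑ i, Real.log (t + a (x i)))) := by
      rw [← Real.exp_sum, ← Real.exp_add, ← Finset.mul_sum, mul_add]
    simp only
    rw [e2]
    by_cases hx : x ∈ C
    · rw [indicator_of_mem hx, Pi.one_apply]
      by_cases hs : 0 ≤ θ + ∑ i, Real.log (t + a (x i))
      · linarith [Real.one_le_exp (mul_nonneg hr hs)]
      · obtain ⟨m, hm⟩ := mem_iUnion.1 hx
        have e1 : ∏ i, (B m i).indicator (1 : Ω → ℝ) (x i) / (t + a (x i))
            = Real.exp (-∑ i, Real.log (t + a (x i))) := by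
          rw [← Finset.sum_neg_distrib, Real.exp_sum]
          refine Finset.prod_congr rfl fun i _ => ?_
          rw [indicator_of_mem (hm i (mem_univ _)), Real.exp_neg, Real.exp_log (hb _)]; simp
        have l1 := Finset.single_le_sum (fun m _ => n1 m) (Finset.mem_univ m)
        rw [e1] at l1
        have l2 := mul_le_mul_of_nonneg_right l1 (Real.exp_pos (-θ)).le
        rw [← Real.exp_add] at l2
        have l3 := Real.one_le_exp (show 0 ≤ -∑ i, Real.log (t + a (x i)) + -θ by linarith)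
        linarith [Real.exp_pos (r * (θ + ∑ i, Real.log (t + a (x i))))]
    · rw [indicator_of_notMem hx]
      linarith [Real.exp_pos (r * (θ + ∑ i, Real.log (t + a (x i))))]
  rw [integral_add j3 (j2.const_mul _), integral_mul_const, integral_const_mul,
    integral_finset_sum _ fun m _ => j1 m] at h2
  have h3 : ∀ m, ∫ x : Fin l → Ω, ∏ i, (B m i).indicator (1 : Ω → ℝ) (x i) / (t + a (x i)) ∂μ
      ≤ K ^ l := fun m => by
    rw [integral_fintype_prod_eq_prod (fun i x => (B m i).indicator (1 : Ω → ℝ) x / (t + a x))]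
    calc ∏ i, ∫ x, (B m i).indicator (1 : Ω → ℝ) x / (t + a x) ∂π
        ≤ ∏ _i : Fin l, K := Finset.prod_le_prod
          (fun i _ => integral_nonneg fun x => div_nonneg (bi _ _).1 (hb _).le)
          fun i _ => hK _ (hB m i)
      _ = K ^ l := by simp
  have h4 : ∫ x : Fin l → Ω, ∏ i, Real.exp (r * Real.log (t + a (x i))) ∂μ
      ≤ Real.exp (-(r * psi π t a) + (r * T) ^ 2) ^ l := by
    rw [integral_fintype_prod_eq_pow (fun x => Real.exp (r * Real.log (t + a x))), Fintype.card_fin]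
    refine pow_le_pow_left₀ (integral_nonneg fun x => (Real.exp_pos _).le) ?_ l
    have : ∫ x, Real.exp (r * Real.log (t + a x)) ∂π ≤
        ∫ x, ((1 + (r * T) ^ 2) - r * -Real.log (t + a x)) ∂π := by
      refine integral_mono i2 ((integrable_const _).sub ((psi_int π ht ga).const_mul r)) fun x => ?_
      have l1 := Real.abs_exp_sub_one_sub_id_le ((hz x).trans hrT)
      have l2 : (r * Real.log (t + a x)) ^ 2 ≤ (r * T) ^ 2 := by
        rw [← sq_abs]; exact pow_le_pow_left₀ (abs_nonneg _) (hz x) 2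
      simp only
      linarith [le_abs_self (Real.exp (r * Real.log (t + a x)) - 1 - r * Real.log (t + a x))]
    rw [integral_sub (integrable_const _) ((psi_int π ht ga).const_mul r), integral_const_mul] at this
    simp only [integral_const, probReal_univ, one_smul] at this
    have l3 := Real.add_one_le_exp (-(r * psi π t a) + (r * T) ^ 2)
    unfold psi at l3 ⊢; linarith
  have h5 := Finset.sum_le_sum fun m (_ : m ∈ Finset.univ) => h3 m
  simp only [Finset.sum_const, Finset.card_univ, Fintype.card_fin, nsmul_eq_mul] at h5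
  have h6 := mul_le_mul_of_nonneg_right h5 (Real.exp_pos (-θ)).le
  have h7 := mul_le_mul_of_nonneg_left h4 (Real.exp_pos (r * θ)).le
  linarith

theorem psi_anti {t s : ℝ} (ht : 0 < t) {a b : Ω → ℝ} (ha : Good a) (hb : Good b) (hs : 0 < s)
    (h : ∀ x, t + a x ≤ s + b x) : psi π s b ≤ psi π t a :=
  integral_mono (psi_int π hs hb) (psi_int π ht ha) fun x => by
    have := Real.log_le_log (by linarith [(ha.2 x).1]) (h x)
    simp only; linarith

theorem glue {A : Set (Ω → ℝ)} (hA : ∀ a ∈ A, Good a)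
    (hσ : ∀ (w : ℕ → ℝ) (f : ℕ → Ω → ℝ), (∀ j, 0 ≤ w j) → HasSum w 1 → (∀ j, f j ∈ A) →
      ∃ a ∈ A, ∀ x, HasSum (fun j => w j * f j x) (a x))
    {h : ℝ} (hh : ∀ t, 0 < t → t ≤ 1 → ∀ ε, 0 < ε → ∃ a ∈ A, psi π t a ≤ h + ε)
    {ε : ℝ} (hε : 0 < ε) : ∃ a ∈ A, ∀ τ, 0 < τ → psi π τ a ≤ h + ε := by
  have hne : A.Nonempty := let ⟨a, ha, _⟩ := hh 1 one_pos le_rfl 1 one_pos; ⟨a, ha⟩
  set g : ℝ → ℝ := fun t => sInf (psi π t '' A) with hg
  have g1 : ∀ t, 0 < t → ∀ a ∈ A, g t ≤ psi π t a := fun t ht a ha =>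
    csInf_le (psi_bdd π ht hA) ⟨a, ha, rfl⟩
  have g2 : ∀ t ∈ Ioc (0 : ℝ) 1, g t ≤ h := fun t ht => le_of_forall_pos_le_add fun e he => by
    obtain ⟨a, ha, h'⟩ := hh t ht.1 ht.2 e he
    exact (g1 t ht.1 a ha).trans h'
  have bd : BddAbove (g '' Ioc (0 : ℝ) 1) := ⟨h, by rintro _ ⟨t, ht, rfl⟩; exact g2 t ht⟩
  have ne : (g '' Ioc (0 : ℝ) 1).Nonempty := ⟨_, 1, ⟨one_pos, le_rfl⟩, rfl⟩
  set G := sSup (g '' Ioc (0 : ℝ) 1)
  have G1 : G ≤ h := csSup_le ne (by rintro _ ⟨t, ht, rfl⟩; exact g2 t ht)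
  have G2 : ∀ e, 0 < e → ∃ s ∈ Ioc (0 : ℝ) 1, ∀ a ∈ A, G - e ≤ psi π s a := fun e he => by
    obtain ⟨_, ⟨s, hs, rfl⟩, h'⟩ := exists_lt_of_lt_csSup ne (show G - e < G by linarith)
    exact ⟨s, hs, fun a ha => h'.le.trans (g1 s hs.1 a ha)⟩
  have G3 : ∀ t ∈ Ioc (0 : ℝ) 1, ∀ e, 0 < e → ∃ a ∈ A, psi π t a ≤ G + e := fun t ht e he => by
    obtain ⟨_, ⟨a, ha, rfl⟩, h'⟩ := exists_lt_of_csInf_lt (hne.image (psi π t))
      (lt_add_of_pos_right (g t) he)
    exact ⟨a, ha, h'.le.trans (by linarith [le_csSup bd ⟨t, ht, rfl⟩])⟩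
  set η := ε / 4
  have hη : 0 < η := by positivity
  set e : ℕ → ℝ := fun j => η / 2 ^ j with he
  have e0 : ∀ j, 0 < e j := fun j => by positivity
  have e1 : ∀ j, 2 * e (j + 1) = e j := fun j => by simp only [he]; field_simp; ring
  set q := 1 - Real.exp (-η) with hq
  have q0 : 0 < q := by
    linarith [Real.exp_lt_exp.2 (show -η < 0 by linarith), Real.exp_zero]
  have q1 : q < 1 := by linarith [Real.exp_pos (-η)]
  set w : ℕ → ℝ := fun j => (1 - q) * q ^ j with hw
  have w0 : ∀ j, 0 < w j := fun j => mul_pos (by linarith) (by positivity)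
  have ws : HasSum w 1 := by
    have := (hasSum_geometric_of_lt_one q0.le q1).mul_left (1 - q)
    rwa [mul_inv_cancel₀ (by linarith)] at this
  choose s hs hs' using fun j => G2 (e (j + 1)) (e0 _)
  set t : ℕ → ℝ := fun j => min (s (j - 1) / 2) (s j * q / 2) with ht
  have t0 : ∀ j, t j ∈ Ioc (0 : ℝ) 1 := fun j =>
    ⟨lt_min (half_pos (hs _).1) (half_pos (mul_pos (hs _).1 q0)),
      (min_le_left _ _).trans (by linarith [(hs (j - 1)).2])⟩
  choose f hf hf' using fun j => G3 (t j) (t0 j) (e j) (e0 j)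
  obtain ⟨a, ha, hsum⟩ := hσ w f (fun j => (w0 j).le) ws hf
  set c : ℕ → Ω → ℝ := fun j x => ∑ i ∈ Finset.range (j + 1), w i * f i x with hc
  have nn : ∀ i x, 0 ≤ w i * f i x := fun i x => mul_nonneg (w0 i).le ((hA _ (hf i)).2 x).1
  have ca : ∀ j x, c j x ≤ a x := fun j x => sum_le_hasSum _ (fun i _ => nn i x) (hsum x)
  have gc : ∀ j, Good (c j) := fun j =>
    ⟨Finset.measurable_sum _ fun i _ => (hA _ (hf i)).1.const_mul _,
      fun x => ⟨Finset.sum_nonneg fun i _ => nn i x, (ca j x).trans ((hA a ha).2 x).2⟩⟩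
  have τ0 : ∀ j, 0 < w j * t j := fun j => mul_pos (w0 j) (t0 j).1
  have V : ∀ j, psi π (w j * t j) (c j) + 2 * e j ≤ G + 4 * η := by
    intro j
    induction j with
    | zero =>
      have : psi π (w 0 * t 0) (c 0) = ∫ x, (η + -Real.log (t 0 + f 0 x)) ∂π := by
        refine integral_congr_ae (ae_of_all _ fun x => ?_)
        have hp : 0 < t 0 + f 0 x := by linarith [(t0 0).1, ((hA _ (hf 0)).2 x).1]
        have : w 0 * t 0 + c 0 x = Real.exp (-η) * (t 0 + f 0 x) := by
          simp only [hc, hw, hq, Finset.range_one, Finset.sum_singleton, zero_add]; ring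
        simp only
        rw [this, Real.log_mul (Real.exp_pos _).ne' hp.ne', Real.log_exp]; ring
      rw [this, integral_add (integrable_const _) (psi_int π (t0 0).1 (hA _ (hf 0)))]
      have h1 := hf' 0
      have h2 : e 0 = η := by simp [he]
      simp only [integral_const, probReal_univ, one_smul]
      unfold psi at h1; linarith
    | succ j ih =>
      have gf := hA _ (hf (j + 1))
      have i1 : Integrable (fun x => -Real.log (w j * t j + c j x)
          + -Real.log (t (j + 1) + f (j + 1) x)) π :=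
        (psi_int π (τ0 j) (gc j)).add (psi_int π (t0 _).1 gf)
      have : psi π (w (j + 1) * t (j + 1)) (c (j + 1)) ≤ ∫ x, (-Real.log (w j * t j + c j x)
          + -Real.log (t (j + 1) + f (j + 1) x) - -Real.log (s j + f (j + 1) x)) ∂π := by
        refine integral_mono (psi_int π (τ0 _) (gc _)) (i1.sub (psi_int π (hs j).1 gf)) fun x => ?_
        have y0 := (gf.2 x).1
        have c0 := ((gc j).2 x).1
        have ec : c (j + 1) x = c j x + w (j + 1) * f (j + 1) x := Finset.sum_range_succ _ _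
        have ew : w (j + 1) = w j * q := by simp only [hw]; ring
        have a1 : t (j + 1) ≤ s j / 2 := min_le_left _ _
        have a2 : t j ≤ s j * q / 2 := min_le_right _ _
        have p1 := τ0 j
        have p2 := (t0 (j + 1)).1
        have p3 := (hs j).1
        have p4 := w0 j
        have p5 := τ0 (j + 1)
        have p6 := nn (j + 1) x
        simp only
        have : Real.log ((w j * t j + c j x) * (t (j + 1) + f (j + 1) x)) ≤
            Real.log ((w (j + 1) * t (j + 1) + c (j + 1) x) * (s j + f (j + 1) x)) := by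
          refine Real.log_le_log (by positivity) ?_
          rw [ec, ew]
          set y := t (j + 1) + f (j + 1) x with hy
          have hy0 : 0 < y := by positivity
          have b1 : y + s j / 2 ≤ s j + f (j + 1) x := by linarith
          have b2 : w j * q * t (j + 1) + (c j x + w j * q * f (j + 1) x) = c j x + w j * q * y := by
            rw [hy]; ring
          rw [b2]
          have b3 : w j * t j * y ≤ w j * (s j * q / 2) * y := by gcongr
          calc _ ≤ (c j x + w j * q * y) * (y + s j / 2) := by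
                have : 0 ≤ c j x * s j := by positivity
                have : 0 ≤ w j * q * y * y := by positivity
                nlinarith
            _ ≤ _ := by gcongr
        rw [Real.log_mul (by positivity) (by positivity),
          Real.log_mul (by rw [ec]; positivity) (by positivity)] at this
        linarith
      rw [integral_sub i1 (psi_int π (hs j).1 gf),
        integral_add (psi_int π (τ0 j) (gc j)) (psi_int π (t0 _).1 gf)] at this
      have h1 := hf' (j + 1)
      have h2 := hs' j _ (hf (j + 1))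
      have h3 := e1 j
      unfold psi at h1 h2 ih this ⊢; linarith
  refine ⟨a, ha, fun τ hτ => ?_⟩
  obtain ⟨j, hj⟩ := (ws.summable.tendsto_atTop_zero.eventually (gt_mem_nhds hτ)).exists
  have h1 := psi_anti π (τ0 j) (gc j) (hA a ha) hτ fun x => by
    have := mul_le_of_le_one_right (w0 j).le (t0 j).2
    linarith [ca j x]
  have h2 := V j
  have h3 := e0 j
  have h4 : 4 * η = ε := by simp only [η]; ring
  linarith

theorem fatou {a : Ω → ℝ≥0∞} (ha : ∀ x, a x ≤ 1) (ga : Good fun x => (a x).toReal) {M : ℝ}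
    (hM : ∀ τ, 0 < τ → psi π τ (fun x => (a x).toReal) ≤ M) : phi π a ≤ ENNReal.ofReal M := by
  set τ : ℕ → ℝ := fun n => 1 / ((n : ℝ) + 1)
  have τ0 : ∀ n, 0 < τ n := fun n => by positivity
  have τl : Tendsto τ atTop (𝓝 0) := tendsto_one_div_add_atTop_nhds_zero_nat
  set F : ℕ → Ω → ℝ := fun n x => -Real.log (τ n + (a x).toReal) + τ n
  have F0 : ∀ n x, 0 ≤ F n x := fun n x => by
    have := Real.log_le_sub_one_of_pos (show 0 < τ n + (a x).toReal by linarith [τ0 n, (ga.2 x).1])
    simp only [F]; linarith [(ga.2 x).2]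
  have lim : ∀ x, Tendsto (fun n => ENNReal.ofReal (F n x)) atTop (𝓝 (negLog (a x))) := fun x => by
    unfold negLog
    split_ifs with h0
    · refine ENNReal.tendsto_ofReal_atTop.comp ?_
      simp only [F, h0, ENNReal.toReal_zero, add_zero]
      refine Tendsto.atTop_add ?_ τl
      exact tendsto_neg_atBot_atTop.comp (Real.tendsto_log_nhdsGT_zero.comp
        (tendsto_nhdsWithin_iff.2 ⟨τl, Eventually.of_forall τ0⟩))
    · refine ENNReal.tendsto_ofReal ?_
      have hp : (a x).toReal ≠ 0 :=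
        (ENNReal.toReal_pos h0 (ne_top_of_le_ne_top ENNReal.one_ne_top (ha x))).ne'
      have := (((τl.add_const (a x).toReal).log (by simpa using hp)).neg).add τl
      simpa using this
  have h1 : phi π a = ∫⁻ x, liminf (fun n => ENNReal.ofReal (F n x)) atTop ∂π :=
    lintegral_congr fun x => (lim x).liminf_eq.symm
  have h2 : ∀ n, ∫⁻ x, ENNReal.ofReal (F n x) ∂π ≤ ENNReal.ofReal (M + τ n) := fun n => by
    have iF : Integrable (F n) π := (psi_int π (τ0 n) ga).add (integrable_const _)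
    rw [← ofReal_integral_eq_lintegral_ofReal iF (ae_of_all _ (F0 n))]
    refine ENNReal.ofReal_le_ofReal ?_
    have := hM _ (τ0 n)
    have e := integral_add (psi_int π (τ0 n) ga) (integrable_const (τ n))
    simp only [integral_const, probReal_univ, one_smul] at e
    unfold psi at this
    exact (le_of_eq e).trans (by linarith)
  have h3 : Tendsto (fun n => ENNReal.ofReal (M + τ n)) atTop (𝓝 (ENNReal.ofReal M)) :=
    ENNReal.tendsto_ofReal (by simpa using τl.const_add M)
  rw [h1, ← h3.liminf_eq]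
  exact (lintegral_liminf_le fun n =>
    ((ga.1.const_add _).log.neg.add_const _).ennreal_ofReal).trans
    (liminf_le_liminf (Eventually.of_forall h2))

theorem rate_ge {I : Set (Set Ω)} {lam : ℝ} {l : ℕ} {v : ℝ}
    (h : ∀ (n : ℕ) (B : Fin n → Fin l → Set Ω), (∀ m i, B m i ∈ I) →
      ENNReal.ofReal (1 - lam) ≤ Measure.pi (fun _ : Fin l => π) (⋃ m, Set.pi univ (B m)) →
      v ≤ Real.log n / l) : ENNReal.ofReal v ≤ rate π I lam l := by
  unfold rate
  split_ifs with h0
  · exact le_top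
  · refine ENNReal.ofReal_le_ofReal ?_
    have h1 : coverNum π I lam l < ((coverNum π I lam l).toNat + 1 : ℕ) := by
      conv_lhs => rw [← ENat.coe_toNat h0]
      exact_mod_cast Nat.lt_succ_self _
    have h2 : ∃ (n : ℕ) (B : Fin n → Fin l → Set Ω) (_ : ∀ m i, B m i ∈ I)
        (_ : ENNReal.ofReal (1 - lam) ≤
          Measure.pi (fun _ : Fin l => π) (⋃ m, Set.pi univ (B m))),
        (n : ℕ∞) < ((coverNum π I lam l).toNat + 1 : ℕ) := by
      simpa only [coverNum, iInf_lt_iff] using h1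
    obtain ⟨n, B, hB, hc, hn⟩ := h2
    have h3 : coverNum π I lam l ≤ n := iInf_le_of_le n (iInf_le_of_le B (iInf_le_of_le hB
      (iInf_le _ hc)))
    rw [← ENat.coe_toNat h0] at h3
    have h4 : (coverNum π I lam l).toNat = n := by
      have a1 : n < (coverNum π I lam l).toNat + 1 := by exact_mod_cast hn
      have a2 : (coverNum π I lam l).toNat ≤ n := by exact_mod_cast h3
      omega
    rw [h4]; exact h n B hB hc

theorem low {I : Set (Set Ω)} (hI : ∀ J ∈ I, MeasurableSet J) {lam : ℝ} (hl : lam < 1)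
    {a : Ω → ℝ} (ga : Good a) {t ε : ℝ} (ht : 0 < t) (hε : 0 < ε)
    (hK : ∀ J ∈ I, ∫ x, J.indicator 1 x / (t + a x) ∂π ≤ 1 + ε) :
    ENNReal.ofReal (psi π t a - 3 * ε) ≤ lowerH π I lam := by
  set T := |Real.log t| + |Real.log (t + 1)| + 1
  have T0 : 0 < T := by positivity
  have hT : ∀ x, |Real.log (t + a x)| ≤ T := fun x =>
    (abs_log_le ht (by linarith [(ga.2 x).1]) (by linarith [(ga.2 x).2])).trans (by linarith)
  set r := min (1 / T) (ε / (2 * T ^ 2))
  have r0 : 0 < r := lt_min (by positivity) (by positivity)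
  have r1 : r * T ≤ 1 := (le_div_iff₀ T0).1 (min_le_left _ _)
  have r2 : r * (2 * T ^ 2) ≤ ε := (le_div_iff₀ (by positivity)).1 (min_le_right _ _)
  set δ := min ε (r * ε / 2)
  have δ0 : 0 < δ := lt_min hε (by positivity)
  have c0 : 0 < (1 - lam) / 2 := by linarith
  have ev : ∀ᶠ l : ℕ in atTop, Real.exp (-δ) ^ l < (1 - lam) / 2 :=
    (tendsto_pow_atTop_nhds_zero_of_lt_one (Real.exp_pos _).le (by
      linarith [Real.exp_lt_exp.2 (show -δ < 0 by linarith), Real.exp_zero])).eventually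
      (gt_mem_nhds c0)
  refine le_liminf_of_le (by isBoundedDefault) ?_
  filter_upwards [ev, eventually_gt_atTop 0] with l hl1 hl0
  refine rate_ge π fun n B hB hc => ?_
  have h := conv π hI ga (θ := l * (psi π t a - ε)) ht hK r0.le hT r1 B hB hc
  have l0 : (0 : ℝ) < l := by exact_mod_cast hl0
  rw [← Real.exp_nat_mul] at hl1
  have a1 : Real.exp (r * (l * (psi π t a - ε))) * Real.exp (-(r * psi π t a) + (r * T) ^ 2) ^ l
      ≤ Real.exp (l * -δ) := by
    rw [← Real.exp_nat_mul, ← Real.exp_add]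
    refine Real.exp_le_exp.2 ?_
    have b1 : δ ≤ r * ε / 2 := min_le_right _ _
    have b2 : (r * T) ^ 2 ≤ r * ε / 2 := by nlinarith
    have b3 : (l : ℝ) * ((r * T) ^ 2 - r * ε) ≤ l * -δ := mul_le_mul_of_nonneg_left (by linarith) l0.le
    nlinarith
  have a2 : (1 + ε) ^ l ≤ Real.exp (l * ε) := by
    rw [Real.exp_nat_mul]
    exact pow_le_pow_left₀ (by positivity) (by linarith [Real.add_one_le_exp ε]) l
  have a3 : Real.exp (l * -ε) ≤ Real.exp (l * -δ) :=
    Real.exp_le_exp.2 (mul_le_mul_of_nonneg_left (neg_le_neg (min_le_left _ _)) l0.le)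
  have a4 : Real.exp (l * -ε) ≤ n * Real.exp (l * ε) * Real.exp (-(l * (psi π t a - ε))) := by
    have : (n : ℝ) * (1 + ε) ^ l * Real.exp (-(l * (psi π t a - ε))) ≤
        n * Real.exp (l * ε) * Real.exp (-(l * (psi π t a - ε))) := by gcongr
    linarith
  have a5 : Real.exp (l * (psi π t a - 3 * ε)) ≤ n := by
    have := mul_le_mul_of_nonneg_right a4 (Real.exp_pos (l * (psi π t a - 2 * ε))).le
    rw [mul_assoc, mul_assoc, ← Real.exp_add, ← Real.exp_add, ← Real.exp_add] at this
    have e1 : (l : ℝ) * ε + (-(l * (psi π t a - ε)) + l * (psi π t a - 2 * ε)) = 0 := by ring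
    have e2 : (l : ℝ) * -ε + l * (psi π t a - 2 * ε) = l * (psi π t a - 3 * ε) := by ring
    rwa [e1, e2, Real.exp_zero, mul_one] at this
  rw [le_div_iff₀ l0, mul_comm]
  exact (Real.le_log_iff_exp_le ((Real.exp_pos _).trans_le a5)).2 a5

/-- The mixture attached to a countably supported weight. -/
noncomputable def am {I : Set (Set Ω)} (p : PMF I) (x : Ω) : ℝ≥0∞ :=
  p.toOuterMeasure {J | x ∈ J.1}

theorem am_eq {I : Set (Set Ω)} (p : PMF I) (x : Ω) :
    ∑' J : I, p J * J.1.indicator 1 x = am p x := by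
  rw [am, PMF.toOuterMeasure_apply]
  refine tsum_congr fun J => ?_
  by_cases h : x ∈ J.1 <;> simp [h, indicator]

theorem am_le {I : Set (Set Ω)} (p : PMF I) (x : Ω) : am p x ≤ 1 := by
  rw [am, PMF.toOuterMeasure_apply, ← p.tsum_coe]
  exact ENNReal.tsum_le_tsum fun J => indicator_le_self _ _ J

theorem am_good {I : Set (Set Ω)} (hI : ∀ J ∈ I, MeasurableSet J) (p : PMF I) :
    Good fun x => (am p x).toReal := by
  refine ⟨Measurable.ennreal_toReal ?_, fun x => ⟨ENNReal.toReal_nonneg,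
    ENNReal.toReal_le_of_le_ofReal zero_le_one (by simpa using am_le p x)⟩⟩
  have := p.support_countable.to_subtype
  have e : am p = fun x => ∑' J : p.support, p J * J.1.1.indicator 1 x := by
    funext x
    rw [← am_eq]
    exact (tsum_subtype_eq_of_support_subset (f := fun J : I => p J * J.1.indicator 1 x)
      (s := p.support) fun J hJ h0 => hJ (by simp [h0])).symm
  rw [e]
  exact Measurable.ennreal_tsum fun J => (measurable_one.indicator (hI _ J.1.2)).const_mul _

theorem am_sigma {I : Set (Set Ω)} (w : ℕ → ℝ) (f : ℕ → Ω → ℝ) (w0 : ∀ j, 0 ≤ w j)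
    (ws : HasSum w 1) (hf : ∀ j, f j ∈ range fun (p : PMF I) x => (am p x).toReal) :
    ∃ a ∈ range fun (p : PMF I) x => (am p x).toReal, ∀ x, HasSum (fun j => w j * f j x) (a x) := by
  choose p hp using hf
  have hW : HasSum (fun j => ENNReal.ofReal (w j)) 1 := by
    have := ENNReal.ofReal_tsum_of_nonneg w0 ws.summable
    rw [ws.tsum_eq, ENNReal.ofReal_one] at this
    rw [this]; exact ENNReal.summable.hasSum
  let W : PMF ℕ := ⟨fun j => ENNReal.ofReal (w j), hW⟩
  refine ⟨_, ⟨W.bind p, rfl⟩, fun x => ?_⟩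
  have e : am (W.bind p) x = ∑' j, ENNReal.ofReal (w j) * am (p j) x :=
    PMF.toOuterMeasure_bind_apply _ _ _
  have ne : ∑' j, ENNReal.ofReal (w j) * am (p j) x ≠ ⊤ :=
    e ▸ ne_top_of_le_ne_top ENNReal.one_ne_top (am_le _ x)
  have h1 := ENNReal.hasSum_toReal ne
  rw [← ENNReal.tsum_toReal_eq (ENNReal.ne_top_of_tsum_ne_top ne), ← e] at h1
  convert h1 using 2 with j
  rw [ENNReal.toReal_mul, ENNReal.toReal_ofReal (w0 j), ← hp j]

theorem am_pure {I : Set (Set Ω)} {J : Set Ω} (hJ : J ∈ I) :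
    J.indicator (1 : Ω → ℝ) ∈ range fun (p : PMF I) x => (am p x).toReal := by
  refine ⟨PMF.pure ⟨J, hJ⟩, funext fun x => ?_⟩
  classical
  simp only [am, PMF.toOuterMeasure_pure_apply]
  by_cases h : x ∈ J <;> simp [h]

theorem cnt_le {I : Set (Set Ω)} (hI : ∀ J ∈ I, MeasurableSet J) {lam : ℝ} (hl : lam < 1) :
    Hcnt π I ≤ lowerH π I lam := by
  by_cases htop : lowerH π I lam = ⊤
  · rw [htop]; exact le_top
  set A := range fun (p : PMF I) x => (am p x).toReal
  have hA : ∀ a ∈ A, Good a := by rintro _ ⟨p, rfl⟩; exact am_good hI p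
  have hne : A.Nonempty := by
    by_contra hA0
    refine htop (eq_top_iff.2 (le_liminf_of_le (by isBoundedDefault) ?_))
    filter_upwards [eventually_gt_atTop 0] with l hl0
    refine le_of_eq (if_pos ?_).symm
    simp only [coverNum, iInf_eq_top]
    intro n B hB hc
    exfalso
    cases n with
    | zero =>
      simp only [iUnion_of_empty, measure_empty, nonpos_iff_eq_zero, ENNReal.ofReal_eq_zero] at hc
      linarith
    | succ n => exact hA0 ⟨_, am_pure (hB 0 ⟨0, hl0⟩)⟩
  have hmix : ∀ a ∈ A, ∀ J ∈ I, ∀ u : ℝ, 0 ≤ u → u ≤ 1 →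
      (fun x => (1 - u) * a x + u * J.indicator 1 x) ∈ A := by
    intro a ha J hJ u u0 u1
    set w : ℕ → ℝ := fun j => if j = 0 then 1 - u else if j = 1 then u else 0 with hw
    have hz : ∀ j ∉ Finset.range 2, w j = 0 := fun j hj => by
      have : 1 < j := by simpa using hj
      simp [hw, show j ≠ 0 by omega, show j ≠ 1 by omega]
    obtain ⟨b, hb, hs⟩ := am_sigma (I := I) w (fun j => if j = 0 then a else J.indicator 1)
      (fun j => by simp only [hw]; split_ifs <;> linarith)
      (by simpa [Finset.sum_range_succ, hw] using hasSum_sum_of_ne_finset_zero hz)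
      (fun j => by split_ifs; exacts [ha, am_pure hJ])
    convert hb using 1
    funext x
    refine HasSum.unique ?_ (hs x)
    have := hasSum_sum_of_ne_finset_zero (s := Finset.range 2)
      (f := fun j => w j * (if j = 0 then a else J.indicator 1) x)
      (L := SummationFilter.unconditional ℕ) fun j hj => by simp [hz j hj]
    simpa [Finset.sum_range_succ, hw] using this
  refine ENNReal.le_of_forall_pos_le_add fun ε hε _ => ?_
  obtain ⟨_, ⟨p, rfl⟩, hp⟩ := glue π hA am_sigma (h := (lowerH π I lam).toReal)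
    (fun t ht ht1 e he => by
      obtain ⟨a, ha, hK⟩ := opt π hI hA hne hmix ht ht1 (show 0 < e / 3 by positivity)
      have := (ENNReal.ofReal_le_iff_le_toReal htop).1 (low π hI hl (hA a ha) ht (by positivity) hK)
      exact ⟨a, ha, by linarith⟩) (show (0 : ℝ) < ε from hε)
  have h1 := fatou π (am_le p) (am_good hI p) hp
  rw [ENNReal.ofReal_add ENNReal.toReal_nonneg ε.coe_nonneg, ENNReal.ofReal_toReal htop,
    ENNReal.ofReal_coe_nnreal] at h1
  refine le_trans (iInf_le _ p) ?_
  simpa only [am_eq] using h1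

theorem full_le {I : Set (Set Ω)} (hI : ∀ J ∈ I, MeasurableSet J) : Hfull π I ≤ Hcnt π I := by
  refine le_iInf fun p => ?_
  let _ : MeasurableSpace I := ⊤
  have hc : NullMeasurableSet {z : I × Ω | z.2 ∈ z.1.1} (p.toMeasure.prod π) := by
    have e : {z : I × Ω | z.2 ∈ z.1.1} = (⋃ J ∈ p.support, ({J} : Set I) ×ˢ J.1) ∪
        ({z : I × Ω | z.2 ∈ z.1.1} ∩ p.supportᶜ ×ˢ univ) := by
      ext ⟨J, x⟩
      by_cases h : J ∈ p.support
      · simp only [mem_setOf_eq, mem_union, mem_iUnion, mem_prod, mem_singleton_iff, mem_inter_iff]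
        exact ⟨fun hx => Or.inl ⟨J, h, rfl, hx⟩, by
          rintro (⟨K, _, rfl, hx⟩ | ⟨hx, _⟩) <;> exact hx⟩
      · simp only [mem_setOf_eq, mem_union, mem_iUnion, mem_prod, mem_singleton_iff, mem_inter_iff]
        exact ⟨fun hx => Or.inr ⟨hx, h, mem_univ _⟩, by
          rintro (⟨K, _, rfl, hx⟩ | ⟨hx, _⟩) <;> exact hx⟩
    rw [e]
    refine (MeasurableSet.biUnion p.support_countable fun J _ =>
      MeasurableSet.prod (show MeasurableSet ({J} : Set I) from trivial) (hI _ J.2)).nullMeasurableSet.union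
      (NullMeasurableSet.of_null (measure_mono_null inter_subset_right ?_))
    rw [Measure.prod_prod, (p.toMeasure_apply_eq_zero_iff trivial).2 disjoint_compl_right, zero_mul]
  refine iInf_le_of_le ⊤ (iInf_le_of_le p.toMeasure (iInf_le_of_le inferInstance
    (iInf_le_of_le hc (le_of_eq ?_))))
  congr 1
  funext x
  rw [am_eq]
  exact p.toMeasure_apply_eq_toOuterMeasure_apply trivial

theorem result {Ω : Type*} [MeasurableSpace Ω] (π : Measure Ω) [IsProbabilityMeasure π]
    (I : Set (Set Ω)) (hI : ∀ J ∈ I, MeasurableSet J) (lam : ℝ) (h0 : 0 < lam) (h1 : lam < 1) :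
    Hcnt π I ≤ lowerH π I lam ∧ Hfull π I ≤ lowerH π I lam ∧ ¬ upperH π I lam < Hfull π I :=
  have a := cnt_le π hI h1
  have b := (full_le π hI).trans a
  ⟨a, b, not_lt.2 (b.trans liminf_le_limsup)⟩

end Pool.Agent.Results.MP_87c4bd_co.NoGap
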